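import Pool.Agent.R972.OP.Stm

/-!
# Project OP (helper972): piece OP-PT (helper780)
-/

set_option autoImplicit false

namespace Pool.Agent.R780.OP

open Pool.Agent.R972.OP

variable {n N : ℕ} {R : Fin n → Fin n → Prop}

theorem mem_cfg {g : Fin n → ℕ} : g ∈ cfg N R ↔
    (∀ a, g a < N) ∧ Function.Injective g ∧ ∀ a b, R a b → g a < g b := by
  unfold cfg
  simp only [Finset.mem_filter, Fintype.mem_piFinset, Finset.mem_range]

theorem mv_apply (i j : ℕ) (g : Fin n → ℕ) (a : Fin n) :
    mv i j g a = if g a = i then j else if g a = j then i else g a :=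
  Equiv.swap_apply_def i j (g a)

theorem mv_mv (i j : ℕ) (g : Fin n → ℕ) : mv i j (mv i j g) = g := by
  funext a
  exact Equiv.swap_apply_self i j (g a)

theorem mv_inj (i j : ℕ) {g : Fin n → ℕ} (hg : Function.Injective g) :
    Function.Injective (mv i j g) := (Equiv.swap i j).injective.comp hg

/-- Conjugation of one exchange by another one. -/
theorem mv_conj (k l i j : ℕ) (g : Fin n → ℕ) :
    mv k l (mv i j g) = mv (Equiv.swap k l i) (Equiv.swap k l j) (mv k l g) := by
  funext a
  change Equiv.swap k l (Equiv.swap i j (g a))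
    = Equiv.swap (Equiv.swap k l i) (Equiv.swap k l j) (Equiv.swap k l (g a))
  rw [Equiv.swap_apply_apply]
  simp

theorem mv_mem_iff {g : Fin n → ℕ} (hg : g ∈ cfg N R) {k : ℕ} (hk : k + 1 < N) :
    mv k (k + 1) g ∈ cfg N R ↔ ∀ a b, R a b → ¬ (g a = k ∧ g b = k + 1) := by
  obtain ⟨h1, h2, h3⟩ := mem_cfg.mp hg
  rw [mem_cfg]
  constructor
  · rintro ⟨-, -, h⟩ a b hab ⟨ha, hb⟩
    have := h a b hab
    rw [mv_apply, mv_apply, ha, hb] at this
    simp at this
  · intro h
    refine ⟨fun a => ?_, mv_inj _ _ h2, fun a b hab => ?_⟩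
    · rw [mv_apply]
      have := h1 a
      split_ifs <;> omega
    · rw [mv_apply, mv_apply]
      have e1 := h3 a b hab
      have e2 := h a b hab
      split_ifs <;> omega

theorem t_PT : S_PT := by
  intro n N R W c F M hW hc hM hF s hs i j hij hjN ht hD k hk
  obtain ⟨t, htd⟩ : ∃ t, t = mv i j s := ⟨_, rfl⟩
  have hWk := hW k hk
  have hck := hc k hk
  have hs3 := (mem_cfg.mp hs).2.2
  have ht3 := (mem_cfg.mp ht).2.2
  have hck0 : 0 ≤ M * (c k * (W (k + 1) - W k)) :=
    mul_nonneg hM (mul_nonneg hck (by linarith))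
  -- bound when both moves are allowed
  have both : ∀ p q : ℕ, Equiv.swap k (k + 1) i = p → Equiv.swap k (k + 1) j = q → p < q → q < N →
      mv k (k + 1) s ∈ cfg N R → mv k (k + 1) (mv i j s) ∈ cfg N R →
      c k * (F (mv k (k + 1) (mv i j s)) - F (mv i j s)) - c k * (F (mv k (k + 1) s) - F s)
        ≤ M * (c k * ((W q - W p) - (W j - W i))) := by
    intro p q hp hq hpq hqN h1 h2
    have e := mv_conj k (k + 1) i j s
    rw [hp, hq] at e
    have h3 : mv p q (mv k (k + 1) s) ∈ cfg N R := by rw [← e]; exact h2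
    have h4 := (abs_le.mp (hF _ h1 p q hpq hqN h3)).2
    rw [← e] at h4
    have h5 : c k * ((F (mv k (k + 1) (mv i j s)) - F (mv k (k + 1) s)) - (F (mv i j s) - F s))
        ≤ c k * (M * (W q - W p) - M * (W j - W i)) :=
      mul_le_mul_of_nonneg_left (by rw [hD]; linarith) hck
    linarith
  -- bounds when one move is allowed
  have one_t : mv k (k + 1) (mv i j s) ∈ cfg N R →
      c k * (F (mv k (k + 1) (mv i j s)) - F (mv i j s)) ≤ M * (c k * (W (k + 1) - W k)) := by
    intro h
    have h4 := (abs_le.mp (hF _ ht k (k + 1) (Nat.lt_succ_self k) hk h)).2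
    have := mul_le_mul_of_nonneg_left h4 hck
    linarith
  have one_s : mv k (k + 1) s ∈ cfg N R →
      - (c k * (F (mv k (k + 1) s) - F s)) ≤ M * (c k * (W (k + 1) - W k)) := by
    intro h
    have h4 := (abs_le.mp (hF _ hs k (k + 1) (Nat.lt_succ_self k) hk h)).1
    have := mul_le_mul_of_nonneg_left h4 hck
    linarith
  unfold tt
  by_cases hi1 : k + 1 = i
  · -- case 4
    have e1 : Equiv.swap k (k + 1) i = k := by rw [← hi1]; exact Equiv.swap_apply_right _ _
    have e2 : Equiv.swap k (k + 1) j = j :=
      Equiv.swap_apply_of_ne_of_ne (by omega) (by omega)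
    rw [if_pos hi1, if_neg (show ¬ k = j by omega), if_neg (show ¬ k = i by omega),
      if_neg (show ¬ k + 1 = j by omega)]
    by_cases h1 : mv k (k + 1) (mv i j s) ∈ cfg N R
    · by_cases h2 : mv k (k + 1) s ∈ cfg N R
      · rw [if_pos h1, if_pos h2]
        have := both k j e1 e2 (by omega) hjN h2 h1
        subst hi1
        linarith
      · rw [if_pos h1, if_neg h2]
        have := one_t h1
        linarith
    · by_cases h2 : mv k (k + 1) s ∈ cfg N R
      · rw [if_neg h1, if_pos h2]
        have := one_s h2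
        linarith
      · rw [if_neg h1, if_neg h2]
        linarith
  by_cases hj0 : k = j
  · -- case 5
    have e1 : Equiv.swap k (k + 1) i = i :=
      Equiv.swap_apply_of_ne_of_ne (by omega) (by omega)
    have e2 : Equiv.swap k (k + 1) j = k + 1 := by rw [← hj0]; exact Equiv.swap_apply_left _ _
    rw [if_neg hi1, if_pos hj0, if_neg (show ¬ k = i by omega),
      if_neg (show ¬ k + 1 = j by omega)]
    by_cases h1 : mv k (k + 1) (mv i j s) ∈ cfg N R
    · by_cases h2 : mv k (k + 1) s ∈ cfg N R
      · rw [if_pos h1, if_pos h2]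
        have := both i (k + 1) e1 e2 (by omega) hk h2 h1
        subst hj0
        linarith
      · rw [if_pos h1, if_neg h2]
        have := one_t h1
        linarith
    · by_cases h2 : mv k (k + 1) s ∈ cfg N R
      · rw [if_neg h1, if_pos h2]
        have := one_s h2
        linarith
      · rw [if_neg h1, if_neg h2]
        linarith
  by_cases hi0 : k = i
  · by_cases hj1 : k + 1 = j
    · -- case 3
      subst hi0
      subst hj1
      rw [mv_mv, if_pos hs, if_pos ht, if_neg hi1, if_neg hj0, if_pos rfl, if_pos rfl]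
      have := hD
      have e : c k * (F (mv k (k + 1) s) - F s) = c k * (M * (W (k + 1) - W k)) := by rw [hD]
      linarith
    · -- case 1
      subst hi0
      have e1 : Equiv.swap k (k + 1) k = k + 1 := Equiv.swap_apply_left _ _
      have e2 : Equiv.swap k (k + 1) j = j :=
        Equiv.swap_apply_of_ne_of_ne (by omega) (by omega)
      have h2 : mv k (k + 1) s ∈ cfg N R := by
        rw [mv_mem_iff hs hk]
        rintro a b hab ⟨ha, hb⟩
        have := ht3 a b hab
        rw [mv_apply, mv_apply, ha, hb] at this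
        split_ifs at this <;> omega
      have h1 : mv k (k + 1) (mv k j s) ∈ cfg N R := by
        rw [mv_mem_iff ht hk]
        rintro a b hab ⟨ha, hb⟩
        have := hs3 a b hab
        rw [mv_apply] at ha hb
        split_ifs at ha hb <;> omega
      rw [if_pos h1, if_pos h2, if_neg hi1, if_neg hj0, if_pos rfl, if_neg hj1]
      have := both (k + 1) j e1 e2 (by omega) hjN h2 h1
      linarith
  · by_cases hj1 : k + 1 = j
    · -- case 2
      subst hj1
      have e1 : Equiv.swap k (k + 1) i = i :=
        Equiv.swap_apply_of_ne_of_ne (by omega) (by omega)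
      have e2 : Equiv.swap k (k + 1) (k + 1) = k := Equiv.swap_apply_right _ _
      have h2 : mv k (k + 1) s ∈ cfg N R := by
        rw [mv_mem_iff hs hk]
        rintro a b hab ⟨ha, hb⟩
        have := ht3 a b hab
        rw [mv_apply, mv_apply, ha, hb] at this
        split_ifs at this <;> omega
      have h1 : mv k (k + 1) (mv i (k + 1) s) ∈ cfg N R := by
        rw [mv_mem_iff ht hk]
        rintro a b hab ⟨ha, hb⟩
        have := hs3 a b hab
        rw [mv_apply] at ha hb
        split_ifs at ha hb <;> omega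
      rw [if_pos h1, if_pos h2, if_neg hi1, if_neg hj0, if_neg hi0, if_pos rfl]
      have := both i k e1 e2 (by omega) (by omega) h2 h1
      linarith
    · -- case 0
      have e1 : Equiv.swap k (k + 1) i = i :=
        Equiv.swap_apply_of_ne_of_ne (by omega) (by omega)
      have e2 : Equiv.swap k (k + 1) j = j :=
        Equiv.swap_apply_of_ne_of_ne (by omega) (by omega)
      have hiff : mv k (k + 1) (mv i j s) ∈ cfg N R ↔ mv k (k + 1) s ∈ cfg N R := by
        rw [mv_mem_iff ht hk, mv_mem_iff hs hk]
        have e : ∀ (a : Fin n) (x : ℕ), x ≠ i → x ≠ j → (mv i j s a = x ↔ s a = x) := by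
          intro a x hxi hxj
          rw [mv_apply]
          split_ifs <;> omega
        constructor
        · rintro h a b hab ⟨ha, hb⟩
          exact h a b hab ⟨(e a k hi0 hj0).mpr ha, (e b (k + 1) hi1 hj1).mpr hb⟩
        · rintro h a b hab ⟨ha, hb⟩
          exact h a b hab ⟨(e a k hi0 hj0).mp ha, (e b (k + 1) hi1 hj1).mp hb⟩
      rw [if_neg hi1, if_neg hj0, if_neg hi0, if_neg hj1]
      by_cases h2 : mv k (k + 1) s ∈ cfg N R
      · have h1 := hiff.mpr h2
        rw [if_pos h1, if_pos h2]
        have := both i j e1 e2 hij hjN h2 h1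
        linarith
      · have h1 := fun h => h2 (hiff.mp h)
        rw [if_neg h1, if_neg h2]
        linarith

end Pool.Agent.R780.OP
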